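import Mathlib
import Pool.Agent.H89.PW.Upper
import Pool.Agent.H89.PW.Five
import Pool.Agent.H89.PW.Four
import Pool.Agent.H32.PW.Three

/-!
# Fixed points of words of letters `x ↦ c x ^ l + e`

Return maps of hyperbolic polycycles with power Dulac maps and affine transitions.
-/

namespace Pool.Agent.Results.MP_acc5bb_an.PowerWords

open Pool.H89.PW

theorem result :
    -- (1) two letters: at most three fixed points, or the identity; three occur
    ((∀ l c e : ℕ → ℝ, (∀ i < 2, 0 < l i) → (∀ i < 2, 0 < c i) →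
      (∀ x ∈ dom l c e 2, orb l c e x 2 = x) ∨ (fixedPts l c e 2).encard ≤ 3) ∧
     (∃ l c e : ℕ → ℝ, (∀ i, 0 < l i) ∧ (∀ i, 0 < c i) ∧ (fixedPts l c e 2).encard = 3)) ∧
    -- (2) three letters: at most five fixed points, or the identity; five occur
    ((∀ l c e : ℕ → ℝ, (∀ i < 3, 0 < l i) → (∀ i < 3, 0 < c i) →
      (∀ x ∈ dom l c e 3, orb l c e x 3 = x) ∨ (fixedPts l c e 3).encard ≤ 5) ∧
     (∃ l c e : ℕ → ℝ, (∀ i, 0 < l i) ∧ (∀ i, 0 < c i) ∧ (fixedPts l c e 3).encard = 5)) ∧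
    -- (3) four letters: at most thirteen fixed points, or the identity
    (∀ l c e : ℕ → ℝ, (∀ i < 4, 0 < l i) → (∀ i < 4, 0 < c i) →
      (∀ x ∈ dom l c e 4, orb l c e x 4 = x) ∨ (fixedPts l c e 4).encard ≤ 13) ∧
    -- (4) at most three for words of every length with the sign condition
    (∀ (n m : ℕ) (l c e : ℕ → ℝ) (σ₁ σ₂ η : ℝ), m < n →
      (∀ i < n, 0 < l i) → (∀ i < n, 0 < c i) →
      (σ₁ = 1 ∨ σ₁ = -1) → (σ₂ = 1 ∨ σ₂ = -1) → (η = 1 ∨ η = -1) →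
      (∀ i < m, 0 ≤ σ₁ * e i ∧ η * σ₁ * (l i - 1) ≤ 0) →
      (∀ i, m ≤ i → i + 1 < n → 0 ≤ σ₂ * e i) →
      (∀ i, m < i → i < n → 0 ≤ η * σ₂ * (l i - 1)) →
      (∀ x ∈ dom l c e n, orb l c e x n = x) ∨ (fixedPts l c e n).encard ≤ 3) ∧
    -- (5) for every `n ≥ 3` some word of `n` letters has at least `n + 2` fixed points
    (∀ n : ℕ, 3 ≤ n → ∃ l c e : ℕ → ℝ, (∀ i, 0 < l i) ∧ (∀ i, 0 < c i) ∧
      (∃ x ∈ dom l c e n, orb l c e x n ≠ x) ∧
      ((n + 2 : ℕ) : ℕ∞) ≤ (fixedPts l c e n).encard) :=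
  ⟨⟨two_letters, example_two⟩, ⟨three_letters, example_three⟩, four_letters, upper, lower⟩

end Pool.Agent.Results.MP_acc5bb_an.PowerWords
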