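import Mathlib
import Pool.Agent.H43.PC.Eta
import Pool.Agent.H43.PC.Conv
import Pool.Agent.H43.PC.Mult

/-!
MP_acc5bb_an: limit cycles born from polycycles with `n` hyperbolic corners.

Corner `k` together with the transition to the next corner is the map `x ↦ e k + g k x` on `(0,d)`, where `e k` is the
breaking parameter of the connection after corner `k` and `g k` has exponent `l k` up to `η` (`HasExponent`). The limit
cycles are the fixed points of the composition of the `n` maps (`IsCycle`). `s` is a pattern of signs: `e k ≥ 0` if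
`s k`, otherwise `e k ≤ 0` (`Signs`). All sequences are `n`-periodic.

Criterion: the product of all exponents is `> 1`, and for every connection `a` with the sign `-` and every later
connection `b ≤ a + n` with the sign `+` the product of the exponents of the corners `a+1, ..., b` passed from `a` to
`b` is `> 1`; or all these products are `< 1`. Then the return map has at most two fixed points, and at most one near
the polycycle, which is hyperbolic, for every `n`. Conversely, if one of these products of consecutive exponents and the product of all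
exponents are on different sides of `1`, two fixed points appear arbitrarily near the polycycle, whatever the corner
maps with these exponents are.

Proof: in the charts `x ^ θ k` with suitable weights `θ k` all `n` maps are convex (or all concave); the weights are
lengths of shortest paths.
-/

set_option autoImplicit false

namespace Pool.Agent.Results.MP_acc5bb_an.ProductCriterion

open Set Pool.Agent.H43.PC

theorem pair_of_lt {S : Set ℝ} {c : ℕ} (h : ((c : ℕ∞)) < S.encard) :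
    ∃ T ⊆ S, T.encard = (c : ℕ∞) + 1 := by
  obtain ⟨T, hT, hTc⟩ := Set.exists_subset_encard_eq (s := S) (k := (c : ℕ∞) + 1) (Order.add_one_le_of_lt h)
  exact ⟨T, hT, hTc⟩

theorem criterion (n : ℕ) (hn : 1 ≤ n) (l : ℕ → ℝ) (hl : ∀ k, 0 < l k) (hper : ∀ k, l (k + n) = l k)
    (s : ℕ → Prop) (hs : ∀ k, s (k + n) ↔ s k)
    (h : (1 < ∏ j ∈ Finset.range n, l j ∧ ∀ a b, a < b → b ≤ a + n → ¬ s a → s b →
        1 < ∏ j ∈ Finset.Ico (a + 1) (b + 1), l j) ∨
      (∏ j ∈ Finset.range n, l j < 1 ∧ ∀ a b, a < b → b ≤ a + n → ¬ s a → s b →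
        ∏ j ∈ Finset.Ico (a + 1) (b + 1), l j < 1)) :
    ∃ η > 0,
      (∀ (d : ℝ) (e : ℕ → ℝ) (g : ℕ → ℝ → ℝ), Signs s n e → (∀ k < n, HasExponent d (l k) η (g k)) →
        {x | IsCycle d e g n x}.encard ≤ 2) ∧
      (∀ d > 0, ∀ C > 0, ∃ δ > 0, ∃ ε > 0, ∀ (e : ℕ → ℝ) (g : ℕ → ℝ → ℝ), Signs s n e →
        (∀ k < n, |e k| < ε) → (∀ k < n, HasExponent d (l k) η (g k)) →
        (∀ k < n, ∀ x ∈ Ioo 0 d, x ^ (l k + η) / C ≤ g k x ∧ g k x ≤ C * x ^ (l k - η)) →
        {x | x < δ ∧ IsCycle d e g n x}.encard ≤ 1 ∧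
          ∀ x < δ, IsCycle d e g n x → ∃ m, HasDerivAt (orb e g n) m x ∧
            (1 < ∏ j ∈ Finset.range n, l j → m < 1) ∧ (∏ j ∈ Finset.range n, l j < 1 → 1 < m)) := by
  obtain ⟨η, hη, hηl, θ, hθ, hθn, hcase⟩ := weights hn hl hper hs h
  refine ⟨η, hη, fun d e g he hg => ?_, fun d hd C hC => ?_⟩
  · by_contra hcon
    push Not at hcon
    obtain ⟨T, hT, hTc⟩ := pair_of_lt (c := 2) (by exact_mod_cast hcon)
    have hTc' : T.encard = 3 := by rw [hTc]; norm_num
    obtain ⟨x, y, z, hxy, hxz, hyz, rfl⟩ := Set.encard_eq_three.1 hTc'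
    have hx : IsCycle d e g n x := hT (by simp)
    have hy : IsCycle d e g n y := hT (by simp)
    have hz : IsCycle d e g n z := hT (by simp)
    have key : ∀ x y z, IsCycle d e g n x → IsCycle d e g n y → IsCycle d e g n z → x < y → y < z → False := by
      intro x y z hx hy hz h1 h2
      refine core hη.le hn θ hθ hθn hg hx hy hz.1 h1 h2 ?_
      rcases hcase with ⟨h3, _⟩ | ⟨h3, _⟩
      · exact Or.inl ⟨h3 e he, hz.2.le⟩
      · exact Or.inr ⟨h3 e he, hz.2.ge⟩
    rcases lt_or_gt_of_ne hxy with h1 | h1 <;> rcases lt_or_gt_of_ne hyz with h2 | h2 <;>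
      rcases lt_or_gt_of_ne hxz with h3 | h3
    · exact key _ _ _ hx hy hz h1 h2
    · exact absurd (h1.trans h2) h3.not_gt
    · exact key _ _ _ hx hz hy h3 h2
    · exact key _ _ _ hz hx hy h3 h1
    · exact key _ _ _ hy hx hz h1 h3
    · exact key _ _ _ hy hz hx h2 h3
    · exact absurd (h2.trans h1) h3.not_gt
    · exact key _ _ _ hz hy hx h2 h1
  · obtain ⟨δ, hδ, ε, hε, hmain⟩ := local_one (Q := Signs s n) hη hn hηl θ hθ hθn hcase hd hC
    obtain ⟨δ', hδ', ε', hε', hmult⟩ := local_mult (Q := Signs s n) hη hn hηl θ hθ hθn hcase hd hC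
    refine ⟨min δ δ', lt_min hδ hδ', min ε ε', lt_min hε hε', fun e g he hsm hg hbd => ⟨?_, ?_⟩⟩
    · rw [Set.encard_le_one_iff]
      intro x y hx hy
      have hsm' : ∀ k < n, |e k| < ε := fun k hk => (hsm k hk).trans_le (min_le_left _ _)
      by_contra hne
      rcases lt_or_gt_of_ne hne with h1 | h1
      · exact hmain e g he hsm' hg hbd x y hx.2 hy.2 h1 (hy.1.trans_le (min_le_left _ _))
      · exact hmain e g he hsm' hg hbd y x hy.2 hx.2 h1 (hx.1.trans_le (min_le_left _ _))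
    · intro x hx hxc
      have hsm' : ∀ k < n, |e k| < ε' := fun k hk => (hsm k hk).trans_le (min_le_right _ _)
      refine ⟨_, hasDerivAt_orb hg hxc.1 n le_rfl, ?_⟩
      rcases hmult e g he hsm' hg hbd x hxc (hx.trans_le (min_le_right _ _)) with ⟨h1, h2⟩ | ⟨h1, h2⟩
      · have h3 : ∏ k ∈ Finset.range n, (l k - η) ≤ ∏ k ∈ Finset.range n, l k :=
          Finset.prod_le_prod (fun k hk => by have := hηl k (Finset.mem_range.1 hk); linarith)
            fun k _ => by linarith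
        exact ⟨fun _ => h2, fun h4 => by linarith⟩
      · have h3 : ∏ k ∈ Finset.range n, l k ≤ ∏ k ∈ Finset.range n, (l k + η) :=
          Finset.prod_le_prod (fun k _ => (hl k).le) fun k _ => by linarith
        exact ⟨fun h4 => by linarith, fun _ => h2⟩

theorem result :
    (∀ (n : ℕ), 1 ≤ n → ∀ (l : ℕ → ℝ), (∀ k, 0 < l k) → (∀ k, l (k + n) = l k) →
      ∀ (s : ℕ → Prop), (∀ k, s (k + n) ↔ s k) →
      ((1 < ∏ j ∈ Finset.range n, l j ∧ ∀ a b, a < b → b ≤ a + n → ¬ s a → s b →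
          1 < ∏ j ∈ Finset.Ico (a + 1) (b + 1), l j) ∨
        (∏ j ∈ Finset.range n, l j < 1 ∧ ∀ a b, a < b → b ≤ a + n → ¬ s a → s b →
          ∏ j ∈ Finset.Ico (a + 1) (b + 1), l j < 1)) →
      ∃ η > 0,
        (∀ (d : ℝ) (e : ℕ → ℝ) (g : ℕ → ℝ → ℝ), Signs s n e → (∀ k < n, HasExponent d (l k) η (g k)) →
          {x | IsCycle d e g n x}.encard ≤ 2) ∧
        (∀ d > 0, ∀ C > 0, ∃ δ > 0, ∃ ε > 0, ∀ (e : ℕ → ℝ) (g : ℕ → ℝ → ℝ), Signs s n e →
          (∀ k < n, |e k| < ε) → (∀ k < n, HasExponent d (l k) η (g k)) →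
          (∀ k < n, ∀ x ∈ Ioo 0 d, x ^ (l k + η) / C ≤ g k x ∧ g k x ≤ C * x ^ (l k - η)) →
          {x | x < δ ∧ IsCycle d e g n x}.encard ≤ 1 ∧
            ∀ x < δ, IsCycle d e g n x → ∃ m, HasDerivAt (orb e g n) m x ∧
              (1 < ∏ j ∈ Finset.range n, l j → m < 1) ∧ (∏ j ∈ Finset.range n, l j < 1 → 1 < m))) ∧
    (∀ (n : ℕ), 1 ≤ n → ∀ (l : ℕ → ℝ), (∀ k, 0 < l k) → (∀ k, l (k + n) = l k) →
      ∀ (s : ℕ → Prop), (∀ k, s (k + n) ↔ s k) → ∀ a b, a < b → b ≤ a + n → ¬ s a → s b →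
      ((1 < ∏ j ∈ Finset.range n, l j ∧ ∏ j ∈ Finset.Ico (a + 1) (b + 1), l j < 1) ∨
        (∏ j ∈ Finset.range n, l j < 1 ∧ 1 < ∏ j ∈ Finset.Ico (a + 1) (b + 1), l j)) →
      ∃ η > 0, ∀ d > 0, ∀ C > 0, ∀ g : ℕ → ℝ → ℝ, (∀ k < n, HasExponent d (l k) η (g k)) →
        (∀ k < n, ∀ x ∈ Ioo 0 d, x ^ (l k + η) / C ≤ g k x ∧ g k x ≤ C * x ^ (l k - η)) →
        ∀ δ > 0, ∃ e : ℕ → ℝ, Signs s n e ∧ (∀ k < n, |e k| < δ) ∧
          ∃ x y, x < y ∧ IsCycle (min δ d) e g n x ∧ IsCycle (min δ d) e g n y) :=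
  ⟨fun n hn l hl hper s hs h => criterion n hn l hl hper s hs h,
    fun _ hn _ hl hper _ hs _ _ hab hbn ha hb h => conv hn hl hper hs hab hbn ha hb h⟩

end Pool.Agent.Results.MP_acc5bb_an.ProductCriterion
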